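import Pool.Agent.W2helper29.CY9

/-!
# Finite groups with few cyclic subgroups are solvable

Every finite group with fewer than `2 ^ (π(G) + 2)` cyclic subgroups is solvable.
-/

set_option autoImplicit false

universe u

namespace Pool.Agent.Results.MP_5fac9c_al.CyclicSubgroupsSolvable

/-- If the number of cyclic subgroups of a finite group `G` is less than `2 ^ (t + 2)`, where `t` is
the number of distinct primes dividing `|G|`, then `G` is solvable. -/
theorem result (G : Type u) [Group G] [Finite G]
    (h : Nat.card {H : Subgroup G // IsCyclic H} < 2 ^ ((Nat.card G).primeFactors.card + 2)) :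
    Group.IsSolvable G :=
  Pool.Agent.W2helper29.CY.main G h

end Pool.Agent.Results.MP_5fac9c_al.CyclicSubgroupsSolvable
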